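import Pool.Agent.H877R3.Join.Main5

/-!
# Oracles which make `P`, `NP` and `PSPACE` equal, while relative to their joins the whole chain is
proper

Above every oracle `C` there are infinitely many oracles `A 0, A 1, A 2, ...`, each of which makes
`P`, `NP` and `PSPACE` equal, such that relative to the join of any two of them all the three
inclusions in `P ⊆ NP ⊆ PSPACE ⊆ EXP` are proper; moreover, relative to the join, `RP` is not
contained in `coNP` and `PSPACE` is not contained in `PP`.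
-/

namespace Pool.Agent.Results.MP_71c844_lc.ChainInJoins

open Pool.Agent.NPC Pool.Agent.H620R2.Gauge Pool.Agent.H877R3.Join
open Pool.Agent.H943R3.PP (IsPP)

theorem result (C : Oracle) : ∃ A : ℕ → Oracle,
    (∀ i, Reduces {x | C x = true} {x | A i x = true} ∧
      (∀ L, IsPSPACE (A i) L → Reduces L {x | A i x = true}) ∧
      (∀ L, IsP (A i) L ↔ Pool.Agent.H620R2.Gauge.IsNP (A i) L) ∧
      ∀ L, IsP (A i) L ↔ IsPSPACE (A i) L) ∧
    ∀ i j, i ≠ j →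
      (∃ L, IsRP (join (A i) (A j)) L ∧ Pool.Agent.H620R2.Gauge.IsNP (join (A i) (A j)) L ∧
        ¬ IsP (join (A i) (A j)) L ∧ ¬ Pool.Agent.H620R2.Gauge.IsNP (join (A i) (A j)) Lᶜ) ∧
      (∃ L, IsPSPACE (join (A i) (A j)) L ∧
        ¬ Pool.Agent.H620R2.Gauge.IsNP (join (A i) (A j)) L) ∧
      (∃ L, IsPSPACE (join (A i) (A j)) L ∧ ¬ IsPP (join (A i) (A j)) L) ∧
      ∃ L, IsEXP (join (A i) (A j)) L ∧ ¬ IsPSPACE (join (A i) (A j)) L := by
  obtain ⟨A, h1, h2⟩ := main5 C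
  refine ⟨A, fun i => ⟨(h1 i).1, (h1 i).2.1, fun L => ⟨fun h =>
    Pool.Agent.H620R2.Gauge.IsP.isNP h, fun h => ((h1 i).2.2 L).2
      (Pool.Agent.H620R2.Gauge.IsNP.isPSPACE h)⟩, (h1 i).2.2⟩, fun i j hij => ?_⟩
  obtain ⟨⟨L, h3, h4, h5⟩, ⟨f, _, h6, h7⟩, h8⟩ := h2 i j hij
  exact ⟨⟨L, h3, h4, fun h => h5 (Pool.Agent.H620R2.Gauge.IsP.isNP
      (Pool.Agent.H877R3.Join.IsP.compl h)), h5⟩,
    ⟨Lᶜ, (Pool.Agent.H620R2.Gauge.IsNP.isPSPACE h4).compl, h5⟩, ⟨_, h6, h7⟩, h8⟩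

end Pool.Agent.Results.MP_71c844_lc.ChainInJoins
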