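import Pool.Agent.H620R2.Gauge.NonNull
import Pool.Agent.H620R2.Gauge.U1
import Pool.Agent.H620R2.GaugeX.KeyX

/-!
# How many oracles collapse one of the inclusions `P ⊆ NP ⊆ PSPACE ⊆ EXP`?

For every gauge `f`, the set of the oracles relative to which one of the three inclusions is an
equality is a null set for `f` if and only if for every `ε > 0` there are infinitely many `N` with
`f N ≤ 2 ^ ((log N) ^ ε)`. The same holds for the set of the oracles relative to which `P = NP =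
PSPACE`, and for the set of the oracles relative to which `P ≠ NP = PSPACE = EXP`.
-/

set_option autoImplicit false

namespace Pool.Agent.Results.MP_71c844_lc.GaugeThreshold

open Pool.Agent.NPC Pool.Agent.H620R2.Gauge

theorem result (f : ℕ → ℝ) :
    (∀ O : Set Oracle,
      ((∀ A : Oracle, (∀ L, IsPSPACE A L → Reduces L {x | A x = true}) → A ∈ O) ∨
        (∀ A : Oracle, (∀ L, IsEXP A L ∨ IsPSPACE A L → IsZPP A L) →
          (∃ L, IsZPP A L ∧ ¬ IsP A L) → A ∈ O)) →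
      (∀ A ∈ O, (∀ L, IsNP A L → WithAdvice (IsNP A) Lᶜ) ∨
        (∀ L, IsEXP A L → WithAdvice (IsPSPACE A) L)) →
      (Null f O ↔
        ∀ ε : ℝ, 0 < ε → ∃ᶠ N : ℕ in Filter.atTop, f N ≤ 2 ^ (Real.logb 2 N) ^ ε)) ∧
    (Null f {A : Oracle | (∀ L, IsNP A L → IsP A L) ∨ (∀ L, IsPSPACE A L → IsNP A L) ∨
        (∀ L, IsEXP A L → IsPSPACE A L)} ↔
      ∀ ε : ℝ, 0 < ε → ∃ᶠ N : ℕ in Filter.atTop, f N ≤ 2 ^ (Real.logb 2 N) ^ ε) ∧
    (Null f {A : Oracle | ∀ L, (IsP A L ↔ IsNP A L) ∧ (IsNP A L ↔ IsPSPACE A L)} ↔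
      ∀ ε : ℝ, 0 < ε → ∃ᶠ N : ℕ in Filter.atTop, f N ≤ 2 ^ (Real.logb 2 N) ^ ε) ∧
    (Null f {A : Oracle | (∃ L, IsNP A L ∧ ¬ IsP A L) ∧ (∀ L, IsNP A L ↔ IsPSPACE A L) ∧
        ∀ L, IsEXP A L → IsPSPACE A L} ↔
      ∀ ε : ℝ, 0 < ε → ∃ᶠ N : ℕ in Filter.atTop, f N ≤ 2 ^ (Real.logb 2 N) ^ ε) := by
  have key : ∀ O : Set Oracle,
      ((∀ A : Oracle, (∀ L, IsPSPACE A L → Reduces L {x | A x = true}) → A ∈ O) ∨
        (∀ A : Oracle, (∀ L, IsEXP A L ∨ IsPSPACE A L → IsZPP A L) →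
          (∃ L, IsZPP A L ∧ ¬ IsP A L) → A ∈ O)) →
      (∀ A ∈ O, (∀ L, IsNP A L → WithAdvice (IsNP A) Lᶜ) ∨
        (∀ L, IsEXP A L → WithAdvice (IsPSPACE A) L)) →
      (Null f O ↔
        ∀ ε : ℝ, 0 < ε → ∃ᶠ N : ℕ in Filter.atTop, f N ≤ 2 ^ (Real.logb 2 N) ^ ε) := by
    intro O h1 h2
    constructor
    · intro hn
      rcases h1 with h1 | h1
      · intro ε hε
        by_contra hcon
        rw [Filter.not_frequently] at hcon
        exact not_null f ε hε (hcon.mono fun N h => not_le.1 h) O h1 hn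
      · by_contra hcon
        exact not_nullT hcon O h1 hn
    · intro hf
      have hN : Null f {A : Oracle | WithAdvice (IsNP A) (hitLang A)ᶜ} :=
        nullN hf _ fun A hA => hA
      have hE : Null f {A : Oracle | WithAdvice (IsPSPACE A) (farLang A)} :=
        nullE hf _ fun A hA => hA
      refine (null_union hN hE).mono fun A hA => ?_
      rcases h2 A hA with h | h
      · exact Or.inl (h _ (hitLang_np A))
      · exact Or.inr (h _ (farLang_exp A))
  have hco : ∀ A : Oracle, (∀ L, IsPSPACE A L → IsNP A L) → ∀ L, IsNP A L →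
      WithAdvice (IsNP A) Lᶜ := by
    intro A hA L hL
    exact (hA _ hL.isPSPACE.compl).withAdvice
  refine ⟨key, key _ (Or.inl ?_) ?_, key _ (Or.inl ?_) ?_, key _ (Or.inr ?_) ?_⟩
  · intro A hA
    exact Or.inl fun L hL => isP_of_reduces (hA L hL.isPSPACE)
  · rintro A (h | h | h)
    · exact Or.inl fun L hL => (h L hL).compl.isNP.withAdvice
    · exact Or.inl (hco A h)
    · exact Or.inr fun L hL => (h L hL).withAdvice
  · intro A hA L
    exact ⟨⟨fun h => h.isNP, fun h => isP_of_reduces (hA L h.isPSPACE)⟩,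
      ⟨fun h => h.isPSPACE, fun h => (isP_of_reduces (hA L h)).isNP⟩⟩
  · intro A hA
    exact Or.inl (hco A fun L hL => (hA L).2.2 hL)
  · intro A hA hZ
    obtain ⟨L, hL, hL'⟩ := hZ
    exact ⟨⟨L, hL.isNP, hL'⟩, fun L => ⟨fun h => h.isPSPACE, fun h => (hA L (Or.inr h)).isNP⟩,
      fun L h => (hA L (Or.inl h)).isNP.isPSPACE⟩
  · intro A hA
    exact Or.inl (hco A fun L hL => (hA.2.1 L).2 hL)

end Pool.Agent.Results.MP_71c844_lc.GaugeThreshold
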