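import Pool.Agent.H334R5.Ps.FinalNP

/-!
# NP and PSPACE: refuting one threshold pattern

The theorem says that `NP = PSPACE` if and only if, for some `PSPACE`-hard set `A`, every list
`x₁, …, xₘ` of polynomially many strings of which exactly the first `j` belong to `A` has a short
proof that its number is not `k`, for one number `k ≠ j`.

Polynomial time and space are measured with Mathlib's `Turing.FinTM2` (through
`Pool.Agent.NPC.PolyTime` and `Pool.Agent.H623R2.PS.InPSPACE`); `InNP`, `InPSPACE`, `PSPACEHard`
are the usual notions. `Pattern` is in `Pool.Agent.H334R5.Nd.Defs`, `Refuter2` is in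
`Pool.Agent.H334R5.Ps.Stmts`.
-/

set_option autoImplicit false

namespace Pool.Agent.Results.MP_71c844_lc.RefutersPSPACE

open Pool.Agent.NPC Pool.Agent.H623R2.PS Pool.Agent.H334R5.Nd Pool.Agent.H334R5.Ps

/-- `NP = PSPACE` if and only if for some `PSPACE`-hard set `A` there is a nondeterministic
polynomial-time algorithm which refutes, for every list of `m ≥ q(n)` strings of length at most `n`
that has a threshold pattern, one of the statements `x₁, …, xₖ ∈ A ∧ xₖ₊₁, …, xₘ ∉ A`
(`0 ≤ k ≤ m`), and which never refutes a true statement of this form. -/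
theorem result :
    (∃ (A : Set (List Bool)) (q ℓ : Polynomial ℕ) (E : List (List Bool) → List Bool → ℕ),
      PSPACEHard A ∧ Refuter2 A q ℓ E) ↔ ∀ L : Set (List Bool), InPSPACE L → InNP L :=
  np_pspace_iff

end Pool.Agent.Results.MP_71c844_lc.RefutersPSPACE
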