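import Pool.Agent.H334R5.Nd.Det

/-!
# P and NP: excluding one threshold pattern

Let `x₁, …, xₘ` be polynomially many strings such that exactly the first `j` of them belong to `A`.
The theorem says that `P = NP` if and only if, for some `NP`-hard set `A`, a number `k ≠ j` can be
found in polynomial time.

Polynomial time is Mathlib's `Turing.TM2ComputableInPolyTime` (through `Pool.Agent.NPC.PolyTime`);
`InP`, `InNP`, `NPHard` are the usual notions. `Pattern` is in `Pool.Agent.H334R5.Nd.Defs`,
`DetExcluder` is in `Pool.Agent.H334R5.Nd.Det`.
-/

set_option autoImplicit false

namespace Pool.Agent.Results.MP_71c844_lc.ThresholdExclusion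

open Pool.Agent.NPC Pool.Agent.H334R5.Nd

/-- `P = NP` if and only if for some `NP`-hard set `A` a polynomial-time algorithm finds, for every
list of `m ≥ q(n)` strings of length at most `n` which has a threshold pattern (the first `j`
strings are in `A`, the others are not), a number `k ≤ m` with `k ≠ j`. -/
theorem result :
    (∃ (A : Set (List Bool)) (q : Polynomial ℕ) (E : List (List Bool) → ℕ),
      NPHard A ∧ DetExcluder A q E) ↔ ∀ L : Set (List Bool), InNP L → InP L :=
  detExcluder_iff

end Pool.Agent.Results.MP_71c844_lc.ThresholdExclusion
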